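import Pool.Agent.H525R4.Mono.Lower

/-!
# SetIntersection: the conjectured space-time tradeoff holds for monotone data structures

A family of `m` subsets of a universe with `n` elements, `m * n ≤ N` (so of total size at most `N`),
is preprocessed.  A monotone data structure (`MonoDS`) has `s` cells; every cell contains an
arbitrary nondecreasing real function of the family (unlimited preprocessing, unlimited word
length).  The query `(i, j)` reads cells adaptively and reports a set which is a nondecreasing
function of the contents of the memory.  The data structure may be random: on every query, every
element of the universe is reported correctly (it is reported iff it is in both sets) with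
probability at least `1 / 2 + δ`, and the expected number of cells read is at most `C * (T + op)`,
where `op` is the size of the intersection.

Then `δ ^ 3 * N ^ 2 ≤ 10 ^ 5 * C ^ 2 * T * s * (log₂ (N / δ)) ^ 3`, for all `N ≥ 2` and all query
times `T ≥ 1`: the space is `Ω~(N ^ 2 / T)`.

Proof.  Let `m = 2 h` and let the queries be the pairs of a set of the first half and a set of the
second half.  The true inputs of a query and an element `e` are: both sets are `{e}`, all other sets
are empty.  The false inputs are random: all other sets are the whole universe, every element is
with a small probability `1 / R` in both sets of the query and otherwise missing from a random one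
of them.  If `e` is reported on the true input and not reported on the false input `y`, then
one of the cells read on `y` is larger on the true input of `e` than on `y`; it *serves* `e`.

Fix a cell, and let its owner be the query for which the `L`-th largest of the values of the cell
on the true inputs is the largest.  For any other query, each of the `L` elements `e'` with the
largest values for the owner is good with probability at least `1 / 2`: the true input of the owner
for `e'` lies below the false input; then the cell can serve fewer than `L` elements.  For the owner
itself a cell serves at most `R L` elements, except with small probability, since the elements in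
both sets hit the elements with large values.  So a query for which all but `n / R` elements are to
be served by `C (T + n / R)` cells must own many cells, at least of order `δ n / (R L)`, if `n` is
of the order `C T L / δ` and `R` of the order `C L / δ`; and every cell has only one owner.
-/

namespace Pool.Agent.Results.MP_f326ae_lc.AdaptiveMonotone

open Pool.Agent.H525R4.Mono

/-- For all `N` and all query times `C * (T + op)` there are `m` and `n` with `m * n ≤ N` such that
every randomised monotone data structure which solves SetIntersection with advantage `δ` on the
families of `m` subsets of a universe with `n` elements has at least
`δ ^ 3 * N ^ 2 / (10 ^ 5 * C ^ 2 * T * (log₂ (N / δ)) ^ 3)` cells. -/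
theorem result (N : ℕ) (hN : 2 ≤ N) (δ C T : ℝ) (hδ : 0 < δ) (hδ2 : δ ≤ 1 / 2) (hC : 1 ≤ C)
    (hT : 1 ≤ T) :
    ∃ m n : ℕ, m * n ≤ N ∧ ∀ (s : ℕ) (Ω : Type) [Fintype Ω] (p : Ω → ℝ) (D : Ω → MonoDS m n s),
      Solves p D δ C T →
        δ ^ 3 * (N : ℝ) ^ 2 ≤ 10 ^ 5 * C ^ 2 * T * s * (Real.logb 2 (N / δ)) ^ 3 :=
  lower hN hδ hδ2 hC hT

end Pool.Agent.Results.MP_f326ae_lc.AdaptiveMonotone
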