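import Pool.Agent.H447R2.CP.Final

/-!
# Unconditional space lower bound for SetIntersection with query time `O(T + op)`

In the cell-probe model, a structure for SetIntersection reading at most `t` cells on pairs with
empty intersection (for instance a structure with query time `C (T + op)`, with `t = C T`) has
space `S ≥ N ^ (1 + 1 / t) / (log N) ^ c`, for all `1 ≤ t ≤ (log N) / 2` and all word lengths
`w ≤ (log N) ^ a`.
-/

namespace Pool.Agent.Results.MP_f326ae_lc.CellProbeBound

open H447CP

/-- A cell-probe data structure for families of `m` subsets of a universe of `u` elements: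
the memory (`S` cells of `w` bits) may depend on the family in an arbitrary way, and the query
`(i, j)` is answered by an adaptive decision tree reading cells, whose answer is a set of
elements of the universe. -/
structure Reporter (m u w S : ℕ) where
  store : (Fin m → Finset (Fin u)) → Fin S → Fin (2 ^ w)
  query : Fin m → Fin m → PTree S (Fin (2 ^ w)) (Finset (Fin u))

/-- On all families of nonempty sets of total size exactly `N`, the structure reports the
intersection of any two members, and reads at most `t` cells when the intersection is empty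
(the number of probes for nonempty intersections is not restricted). -/
def Reporter.Solves {m u w S : ℕ} (D : Reporter m u w S) (N t : ℕ) : Prop :=
  ∀ F : Fin m → Finset (Fin u), (∀ i, (F i).Nonempty) → ∑ i, (F i).card = N →
    ∀ i j : Fin m, (D.query i j).run (D.store F) = F i ∩ F j ∧
      (F i ∩ F j = ∅ → (D.query i j).cost (D.store F) ≤ t)

/-- **Main theorem.** -/
theorem result (a : ℕ) : ∃ c N₀ : ℕ, ∀ N t w : ℕ, N₀ ≤ N → 1 ≤ t →
    (t : ℝ) ≤ Real.log N / 2 → (w : ℝ) ≤ (Real.log N) ^ a →
    ∃ m ≤ N, ∀ (S : ℕ) (D : Reporter m N w S), D.Solves N t →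
      (N : ℝ) ^ (1 + 1 / (t : ℝ)) / (Real.log N) ^ c ≤ S := by
  obtain ⟨c, N₀, h⟩ := disjointness_bound 2 a le_rfl
  refine ⟨c, N₀, fun N t w hN ht htx hwx => ?_⟩
  obtain ⟨m, hm, hS⟩ := h N t w hN ht htx hwx
  refine ⟨m, hm, fun S D hD => ?_⟩
  have h2 := hS S D.store
    (fun v => (D.query (v 0) (v 1)).map fun A => decide (A = ∅)) ?_
  · have h3 : (((2 : ℕ) : ℝ) - 1) = 1 := by norm_num
    rw [h3] at h2
    exact h2
  · intro F hne hsum v
    have hiff : (∀ y, ∃ a, y ∉ F (v a)) ↔ F (v 0) ∩ F (v 1) = ∅ := by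
      rw [← Finset.disjoint_iff_inter_eq_empty, Finset.disjoint_left]
      constructor
      · intro h y hy0 hy1
        obtain ⟨a, ha⟩ := h y
        rcases Fin.exists_fin_two.mp ⟨a, rfl⟩ with h0 | h1
        · rw [h0] at ha; exact ha hy0
        · rw [h1] at ha; exact ha hy1
      · intro h y
        by_cases hy : y ∈ F (v 0)
        · exact ⟨1, h hy⟩
        · exact ⟨0, hy⟩
    obtain ⟨h4, h5⟩ := hD F hne hsum (v 0) (v 1)
    rw [PTree.run_map, PTree.cost_map, h4, hiff]
    exact ⟨by simp, h5⟩

/-- The output-sensitive form: query time `C (T + op)`. -/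
theorem output_sensitive (a : ℕ) : ∃ c N₀ : ℕ, ∀ N C T w : ℕ, N₀ ≤ N → 1 ≤ C * T →
    (C * T : ℝ) ≤ Real.log N / 2 → (w : ℝ) ≤ (Real.log N) ^ a →
    ∃ m ≤ N, ∀ (S : ℕ) (D : Reporter m N w S),
      (∀ F : Fin m → Finset (Fin N), (∀ i, (F i).Nonempty) → ∑ i, (F i).card = N →
        ∀ i j : Fin m, (D.query i j).run (D.store F) = F i ∩ F j ∧
          (D.query i j).cost (D.store F) ≤ C * (T + (F i ∩ F j).card)) →
      (N : ℝ) ^ (1 + 1 / (C * T : ℝ)) / (Real.log N) ^ c ≤ S := by
  obtain ⟨c, N₀, h⟩ := result a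
  refine ⟨c, N₀, fun N C T w hN ht htx hwx => ?_⟩
  obtain ⟨m, hm, hS⟩ := h N (C * T) w hN ht (by push_cast; exact htx) hwx
  refine ⟨m, hm, fun S D hD => ?_⟩
  have h2 := hS S D fun F hne hsum i j => ?_
  · push_cast at h2
    exact h2
  · obtain ⟨h4, h5⟩ := hD F hne hsum i j
    refine ⟨h4, fun h0 => ?_⟩
    rw [h0, Finset.card_empty, add_zero] at h5
    exact h5

end Pool.Agent.Results.MP_f326ae_lc.CellProbeBound
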