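import Mathlib
import Pool.Agent.H587R2.MRC.SI
import Pool.Agent.H587R2.MRC.SIUp

/-!
# Set intersection queries: `S * T ^ 2 = Θ(N ^ 2)` for monotone data structures

A family of `N` sets `F l ⊆ U l` with given universes of total size at most `N` is preprocessed.
A monotone data structure has `s` cells, every cell contains an arbitrary nondecreasing real
function of the whole family (unlimited preprocessing, unlimited word length), and the query
`i, j` (do the sets `i` and `j` intersect?) evaluates an arbitrary nondecreasing real function of
`t` numbers.  Every one of these numbers is the contents of a cell or (for free in the space) the
value of a nondecreasing function of the family which does not depend on the set `i` or does not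
depend on the set `j`.  Which numbers are read depends only on `i` and `j`.

(1) If `482 * t ≤ δ * N` then there are universes of total size at most `N` such that
`δ ^ 3 * N ^ 2 ≤ 3200000 * s * t ^ 2` for all random monotone data structures which answer every
single query correctly with probability at least `1 / 2 + δ`.

(2) For all universes of total size at most `N` and all `t ≥ 1` there is a deterministic monotone
data structure without errors with `s * t ^ 2 ≤ 4 * N ^ 2`.

So `S = Θ(N ^ 2 / T ^ 2)` is necessary and sufficient in this model for the emptiness queries for
all `T ≤ c * N`, and every monotone structure which lists the intersection needs at least this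
space (it answers the emptiness queries as well).

Proof of (1).  Take `2 * k` universes of `r` elements, where `r` is a large constant times
`t / δ`, and the `k ^ 2` queries with one set in the first and the other set in the second half.
The true points of a query are the families in which its two sets are `{u}` and all others are
empty, the false points are given by sets `T` of elements: the two sets are the complement of `T`
and `T`, all other sets are full.  For a function of the family let `D(p)` be the set of all `T`
such that it is larger at the true point `p = (i, j, u)` than at the false point `T`, and call
`p` mixed if both the `T` in `D(p)` which contain `p` and those which do not contain `p` make up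
at least `1 / 8` of `D(p)`.  If `T` is in `D(p)` for the answer of a query then it is in `D(p)`
for one of the `t` numbers.  For the elements which are not mixed for this number only a bounded
part (on the average over `T`) of every query is possible, as the sets `D(p)` are nested and a
large family of sets is not biased in many directions.  A function which does not depend on one of
the two sets has no mixed elements, and a cell has, on the average over `T`, only `O (r)` of
them for all queries together: for different queries the zeros of `T` must cover all `q` whose
true points have larger values, which is unlikely if there is a large matching of such `q` in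
other queries, or a large star at one of the two sets.
-/

namespace Pool.Agent.Results.MP_f326ae_lc.EmptinessTradeoff

open Pool.Agent.H587R2.MRC.SI

theorem result :
    (∀ (N t : ℕ) (δ : ℝ), 0 < δ → δ ≤ 1 / 2 → 1 ≤ t → 482 * (t : ℝ) ≤ δ * N →
      ∃ U : Fin N → Finset ℕ, ∑ l, (U l).card ≤ N ∧ (∀ l, U l ⊆ Finset.range N) ∧
        ∀ (s : ℕ) (Ω : Type) [Fintype Ω] (p : Ω → ℝ) (D : Ω → DS N s t), DSSolves U δ p D →
          δ ^ 3 * (N : ℝ) ^ 2 ≤ 3200000 * (s * (t : ℝ) ^ 2)) ∧
    (∀ (N t : ℕ), 1 ≤ t → ∀ U : Fin N → Finset ℕ, ∑ l, (U l).card ≤ N →
      ∃ s : ℕ, s * t ^ 2 ≤ 4 * N ^ 2 ∧ ∃ D : DS N s t, D.AlwaysCorrect U) :=
  ⟨fun _ _ _ hδ hδ2 ht hn => ds_bound hδ hδ2 ht hn, fun _ _ ht U hU => ds_upper ht U hU⟩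

end Pool.Agent.Results.MP_f326ae_lc.EmptinessTradeoff
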