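import Mathlib
import Pool.Agent.H257R3.SI.Final

/-!
# SetIntersection: space `N² / T` is necessary for monotone non-adaptive data structures

Two families of `m` subsets of a universe of `N` elements are preprocessed (a family of `2 m` sets
in two halves).  A monotone non-adaptive data structure has `s` cells, every cell contains an
arbitrary nondecreasing real function of all `2 m` sets (unlimited preprocessing, unlimited word
length).  The query `(i, j)` reads `t` numbers and reports an arbitrary nondecreasing function of
them.  Every number is the contents of a cell or, for free in the space, an arbitrary
nondecreasing function of the left family alone or of the right family alone; which numbers are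
read depends only on `(i, j)`.  The data structure may be random.  It has to answer the queries
only for families of total size at most `N` all of whose intersections have at most `T` elements,
and every single element of the answer has to be right only with probability `1 / 2 + δ`.

For all `C` and `δ > 0` there is `c > 0` such that `t ≤ C T` implies `s ≥ c N² / T`, whenever
`log N ≤ c T` and `T ≤ c N`: this is the full order of the conjectured bound for query time
`O (T + op)`, because all outputs have `op ≤ T`.

Proof.  Let `ρ` be a small constant times `δ / C`, let the universe have `K = T / (4 ρ²)` elements,
and put every element into every set independently with probability `ρ`; then all intersections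
have at most `T` elements with high probability.  For `p = (i, u, j)` compare such a random
point `F` at which `u` is not in both sets `L_i`, `R_j` with the point `pt p` at which `L_i = {u}`,
`R_j = {u}` and all other sets are empty.  If both answers are correct then one of the `t` numbers
`r` of the query is larger at `pt p` than at `F`; let `D_r(p)` be the set of all such `F`.  The sets
`D_r(p)`, for fixed `r`, are nested down-sets, and `u` is not in both sets at any point of
`D_r(p)`.  Call `p` mixed for `r` if both `u ∈ L_i` and `u ∈ R_j` have within `D_r(p)` at least one
eighth of their usual probability `ρ`.
(1) A down-set of measure `ε` is biased in this sense against only `4 log (1 / ε) / ρ` coordinates.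
So the non-mixed `p` of one query contribute only `O (1 / ρ)` to the sum of the measures of the
`D_r(p)`, and together with `u ∈ R_j` only `O (1)`.  As `t ≤ C T = O (C ρ² K)`, the non-mixed
numbers can separate only a small part of the `ρ K` that is needed.  Numbers which are functions of
one family are never mixed.
(2) For one cell `r` the mixed `p` (of all queries together) with `D_r(p)` of measure about
`2 ^ (-h)` form a graph between the left and the right coordinates without matchings larger than
`(h + 1) / ρ²` (all its edges are missing at the points of the smallest `D_r(p)`) and without stars
larger than `(h + 1) (1 + log (8 / ρ)) / ρ`.  So the mixed `p` of a cell contribute at most a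
constant, depending only on `ρ`, and `s` is at least a constant times the number `m² K` of all
`p`, which is of order `N² / K`.
-/

namespace Pool.Agent.Results.MP_f326ae_lc.MonotoneTradeoff

open Pool.Agent.H257R3.SI

theorem result (C δ : ℝ) (hC : 1 ≤ C) (hδ : 0 < δ) (hδ2 : δ ≤ 1 / 2) :
    ∃ c : ℝ, 0 < c ∧ ∀ N T : ℕ, 1 ≤ T → Real.log N ≤ c * T → (T : ℝ) ≤ c * N →
      ∃ m : ℕ, m ≤ N ∧ ∀ s t : ℕ, (t : ℝ) ≤ C * T →
        ∀ (Ω : Type) [Fintype Ω] (p : Ω → ℝ) (D : Ω → DS m N s t), Solves T δ p D →
          c * ((N : ℝ) ^ 2 / T) ≤ s :=
  final C δ hC hδ hδ2

end Pool.Agent.Results.MP_f326ae_lc.MonotoneTradeoff
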